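import Pool.Agent.Run7.h105.PC.Defs

set_option autoImplicit false

/-! Piece LIM of helper105's project PC (S06633): Fekete's lemma. -/

open Filter Topology Set MeasureTheory
open scoped ENNReal

namespace Pool.Agent.Run7.h713.PC

open Pool.Agent.Run7.h105.PC

theorem t_LIM : S_SUB → S_POS → S_LIM := by
  intro hSUB hPOS s hs
  obtain ⟨c0, hc0, hpos⟩ := hPOS s hs
  have hsub : Subadditive (fun n : ℕ => (G s n : ℝ)) := by
    intro m n
    have := hSUB s (by linarith) m n
    show (G s (m + n) : ℝ) ≤ (G s m : ℝ) + (G s n : ℝ)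
    exact_mod_cast this
  have hbdd : BddBelow (range fun n : ℕ => (G s n : ℝ) / n) := by
    refine ⟨0, ?_⟩
    rintro _ ⟨n, rfl⟩
    positivity
  have hlim := hsub.tendsto_lim hbdd
  refine ⟨hsub.lim, ?_, ?_, ?_⟩
  · refine lt_of_lt_of_le hc0 (ge_of_tendsto hlim ?_)
    filter_upwards [eventually_gt_atTop 0] with n hn
    have hn' : (0 : ℝ) < n := by exact_mod_cast hn
    rw [le_div_iff₀ hn']
    exact hpos n
  · intro n
    rcases Nat.eq_zero_or_pos n with h | h
    · subst h
      simp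
    · have hn' : (0 : ℝ) < n := by exact_mod_cast h
      have := hsub.lim_le_div hbdd h.ne'
      rwa [le_div_iff₀ hn'] at this
  · intro ε hε
    have h1 : ∀ᶠ n : ℕ in atTop, (G s n : ℝ) / n < hsub.lim + ε :=
      (tendsto_order.1 hlim).2 _ (by linarith)
    obtain ⟨n, hn1, hn2⟩ := (h1.and (eventually_ge_atTop 1)).exists
    refine ⟨n, hn2, ?_⟩
    have hn' : (0 : ℝ) < n := by exact_mod_cast hn2
    rw [div_lt_iff₀ hn'] at hn1
    exact hn1.le

end Pool.Agent.Run7.h713.PC
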